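import Mathlib
import Pool.Agent.Helper41.Cad.Example

set_option autoImplicit false

/-!
# The plane graph of the example and its light faces
-/

namespace Pool.Agent.Helper41.Cad

namespace Ex

/-- the vertices of the faces -/
def tA (F : ℕ) : ℕ := (tri.getD F (0, 0, 0)).1
def tB (F : ℕ) : ℕ := (tri.getD F (0, 0, 0)).2.1
def tC (F : ℕ) : ℕ := (tri.getD F (0, 0, 0)).2.2

structure DartOK (u v : ℕ) : Prop where
  lt : v < 114
  ne : v ≠ u
  symm : adjB v u = true
  nx : adjB u (look u v).1 = true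
  pv : adjB u (look u v).2.1 = true
  pn : (look u (look u v).1).2.1 = v
  np : (look u (look u v).2.1).1 = v
  fl : (look u v).2.2 < 224
  fn : (look v (look v u).1).2.2 = (look u v).2.2
  cyc : ∃ k, iter u k = v
  tr : (u = tA (look u v).2.2 ∧ v = tB (look u v).2.2) ∨
    (u = tB (look u v).2.2 ∧ v = tC (look u v).2.2) ∨
    (u = tC (look u v).2.2 ∧ v = tA (look u v).2.2)

theorem ok {u v : ℕ} (hu : u < 114) (h : adjB u v = true) : DartOK u v := by
  have h1 := dart_ok hu h
  unfold chkDart at h1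
  rcases hT : tri.getD (look u v).2.2 (0, 0, 0) with ⟨a, b, c⟩
  rw [hT] at h1
  simp only [Bool.and_eq_true, Bool.or_eq_true, decide_eq_true_eq, beq_iff_eq] at h1
  obtain ⟨⟨⟨⟨⟨⟨⟨⟨⟨⟨h1, h2⟩, h3⟩, h4⟩, h5⟩, h6⟩, h7⟩, h8⟩, h9⟩, h10⟩, h11⟩ := h1
  refine ⟨h1, h2, h3, h4, h5, h6, h7, h8, h9, ?_, ?_⟩
  · obtain ⟨k, -, hk⟩ := List.any_eq_true.1 h10
    exact ⟨k, by simpa using hk⟩
  · unfold tA tB tC
    rw [hT]
    rcases h11 with (h11 | h11) | h11
    · exact Or.inl h11
    · exact Or.inr (Or.inl h11)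
    · exact Or.inr (Or.inr h11)

structure FaceOK (F : ℕ) : Prop where
  la : tA F < 114
  lb : tB F < 114
  lc : tC F < 114
  ab : adjB (tA F) (tB F) = true
  bc : adjB (tB F) (tC F) = true
  ca : adjB (tC F) (tA F) = true
  nab : tA F ≠ tB F
  nbc : tB F ≠ tC F
  nac : tA F ≠ tC F
  fab : (look (tA F) (tB F)).2.2 = F
  fbc : (look (tB F) (tC F)).2.2 = F
  fca : (look (tC F) (tA F)).2.2 = F

theorem okF {F : ℕ} (hF : F < 224) : FaceOK F := by
  have h1 := List.all_eq_true.1 chkFace_true F (List.mem_range.2 hF)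
  unfold chkFace at h1
  rcases hT : tri.getD F (0, 0, 0) with ⟨a, b, c⟩
  rw [hT] at h1
  simp only [Bool.and_eq_true, decide_eq_true_eq, beq_iff_eq] at h1
  obtain ⟨⟨⟨⟨⟨⟨⟨⟨⟨⟨⟨h1, h2⟩, h3⟩, h4⟩, h5⟩, h6⟩, h7⟩, h8⟩, h9⟩, h10⟩, h11⟩, h12⟩ := h1
  have ea : tA F = a := by unfold tA; rw [hT]
  have eb : tB F = b := by unfold tB; rw [hT]
  have ec : tC F = c := by unfold tC; rw [hT]
  constructor <;> (try rw [ea]) <;> (try rw [eb]) <;> (try rw [ec]) <;> assumption

/-- the graph -/
def G : SimpleGraph (Fin 114) where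
  Adj u v := adjB u v = true
  symm := ⟨fun u _ h => (ok u.isLt h).symm⟩
  loopless := ⟨fun u h => (ok u.isLt h).ne rfl⟩

theorem G_adj {u v : Fin 114} : G.Adj u v ↔ adjB u v = true := Iff.rfl

instance : DecidableRel G.Adj := fun u v => inferInstanceAs (Decidable (adjB u v = true))

/-- the dart from `u` to `v` -/
def dart (u v : ℕ) (hu : u < 114) (h : adjB u v = true) : G.Dart :=
  ⟨(⟨u, hu⟩, ⟨v, (ok hu h).lt⟩), h⟩

theorem dart_fst (u v : ℕ) (hu : u < 114) (h : adjB u v = true) :
    ((dart u v hu h).fst : ℕ) = u := rfl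

theorem dart_snd (u v : ℕ) (hu : u < 114) (h : adjB u v = true) :
    ((dart u v hu h).snd : ℕ) = v := rfl

theorem dart_ext {a b : G.Dart} (h1 : (a.fst : ℕ) = b.fst) (h2 : (a.snd : ℕ) = b.snd) : a = b := by
  apply SimpleGraph.Dart.ext
  exact Prod.ext (Fin.ext h1) (Fin.ext h2)

theorem dOK (d : G.Dart) : DartOK (d.fst : ℕ) (d.snd : ℕ) := ok d.fst.isLt d.adj

/-- rotation -/
def rot : Equiv.Perm G.Dart where
  toFun d := dart d.fst (look d.fst d.snd).1 d.fst.isLt (dOK d).nx
  invFun d := dart d.fst (look d.fst d.snd).2.1 d.fst.isLt (dOK d).pv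
  left_inv d := dart_ext rfl (by rw [dart_snd]; exact (dOK d).pn)
  right_inv d := dart_ext rfl (by rw [dart_snd]; exact (dOK d).np)

theorem rot_fst (d : G.Dart) : (rot d).fst = d.fst := Fin.ext rfl

theorem rot_snd (d : G.Dart) : ((rot d).snd : ℕ) = (look d.fst d.snd).1 := rfl

/-- face -/
def face (d : G.Dart) : Fin 224 := ⟨(look d.fst d.snd).2.2, (dOK d).fl⟩

theorem face_val (d : G.Dart) : (face d : ℕ) = (look d.fst d.snd).2.2 := rfl

theorem face_next (d : G.Dart) : face (rot d.symm) = face d := by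
  apply Fin.ext
  rw [face_val, face_val, rot_fst, rot_snd]
  exact (dOK d).fn

theorem face_surjective : Function.Surjective face := by
  intro F
  have h := okF F.isLt
  exact ⟨dart (tA F) (tB F) h.la h.ab, Fin.ext h.fab⟩

theorem rot_cyclic (d d' : G.Dart) (hd : d.fst = d'.fst) : rot.SameCycle d d' := by
  -- every dart is reached from the first one
  have key : ∀ u : Fin 114, ∀ h0 : adjB u (iter u 0) = true, ∀ k,
      adjB u (iter u k) = true ∧ ∀ h : adjB u (iter u k) = true,
        (rot ^ k) (dart u (iter u 0) u.isLt h0) = dart u (iter u k) u.isLt h := by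
    intro u h0 k
    induction k with
    | zero => exact ⟨h0, fun h => by simp⟩
    | succ k ih =>
      have h1 : adjB u (iter u (k + 1)) = true := (ok u.isLt ih.1).nx
      refine ⟨h1, fun h => ?_⟩
      rw [pow_succ', Equiv.Perm.mul_apply, ih.2 ih.1]
      exact dart_ext rfl rfl
  have h0 : ∀ u : Fin 114, adjB u (iter u 0) = true := by
    decide +kernel
  have h1 : ∀ d : G.Dart, rot.SameCycle (dart d.fst (iter d.fst 0) d.fst.isLt (h0 d.fst)) d := by
    intro d
    obtain ⟨k, hk⟩ := (dOK d).cyc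
    refine ⟨k, ?_⟩
    rw [zpow_natCast]
    have h2 := key d.fst (h0 d.fst) k
    rw [h2.2 h2.1]
    exact dart_ext rfl hk
  have h2 := h1 d'
  have h3 : dart d'.fst (iter d'.fst 0) d'.fst.isLt (h0 d'.fst) =
      dart d.fst (iter d.fst 0) d.fst.isLt (h0 d.fst) := by
    apply dart_ext
    · rw [dart_fst, dart_fst, hd]
    · rw [dart_snd, dart_snd, hd]
  rw [h3] at h2
  exact (h1 d).symm.trans h2

theorem connected : G.Connected := by
  have h0 : ∀ n : ℕ, ∀ hn : n < 114, G.Reachable ⟨0, by norm_num⟩ ⟨n, hn⟩ := by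
    intro n
    induction n using Nat.strong_induction_on with
    | _ n ih =>
      intro hn
      rcases Nat.eq_zero_or_pos n with h | h
      · subst h; exact SimpleGraph.Reachable.refl _
      · obtain ⟨m, rfl⟩ : ∃ m, n = m + 1 := ⟨n - 1, by omega⟩
        have h1 := List.all_eq_true.1 chkConn_true m (List.mem_range.2 (by omega))
        obtain ⟨e, he, hev⟩ := List.any_eq_true.1 h1
        rw [decide_eq_true_eq] at hev
        have h2 : adjB (m + 1) e.1 = true := List.any_eq_true.2 ⟨e, he, by simp⟩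
        have h3 := ok hn h2
        have h4 := ih e.1 hev h3.lt
        refine h4.trans (SimpleGraph.Adj.reachable ?_)
        exact h3.symm
  have : Nonempty (Fin 114) := ⟨⟨0, by norm_num⟩⟩
  refine SimpleGraph.Connected.mk ?_
  intro u v
  exact (h0 u u.isLt).symm.trans (h0 v v.isLt)

def degN (u : ℕ) : ℕ := (row u).length

theorem deg_all : ∀ u : Fin 114, (Finset.univ.filter fun v : Fin 114 => adjB u v = true).card =
    degN u := by
  decide +kernel

theorem deg_sum : ∑ u : Fin 114, degN u = 672 := by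
  decide +kernel

theorem deg_ge : ∀ u : Fin 114, 5 ≤ degN u := by
  decide +kernel

theorem ncard_neighborSet (u : Fin 114) : (G.neighborSet u).ncard = degN u := by
  rw [← deg_all u, ← Set.ncard_coe_finset]
  congr 1
  ext v
  simp [G_adj]

theorem edges : G.edgeSet.ncard = 336 := by
  have h1 := G.sum_degrees_eq_twice_card_edges
  have h2 : ∀ u, G.degree u = degN u := by
    intro u
    rw [← ncard_neighborSet u, ← SimpleGraph.card_neighborSet_eq_degree,
      ← Nat.card_eq_fintype_card]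
    rfl
  rw [Finset.sum_congr rfl fun u _ => h2 u, deg_sum] at h1
  have h3 : G.edgeSet.ncard = G.edgeFinset.card := by
    rw [← Set.ncard_coe_finset, SimpleGraph.coe_edgeFinset]
  omega

/-- the plane graph -/
def P : PlaneGraph (Fin 114) where
  graph := G
  rot := rot
  rot_fst := rot_fst
  rot_cyclic := rot_cyclic
  Face := Fin 224
  face := face
  face_surjective := face_surjective
  face_next := face_next
  linked d d' := Relation.EqvGen.rel _ _ (Or.inl (connected.preconnected _ _))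
  euler := by
    have h : Nat.card G.ConnectedComponent = 1 := by
      have h1 : Subsingleton G.ConnectedComponent := connected.preconnected.subsingleton_connectedComponent
      have h2 : Nonempty G.ConnectedComponent := ⟨G.connectedComponentMk ⟨0, by norm_num⟩⟩
      exact Nat.card_unique
    rw [edges, h, Nat.card_eq_fintype_card, Nat.card_eq_fintype_card, Fintype.card_fin,
      Fintype.card_fin]

theorem P_deg (u : Fin 114) : P.deg u = degN u := ncard_neighborSet u

/-- the degrees of the vertices of the face `F` are `i`, `j`, `k` in some order -/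
def Q (i j k F : ℕ) : Bool :=
  decide ((degN (tA F), degN (tB F), degN (tC F)) ∈
    [(i, j, k), (i, k, j), (j, i, k), (j, k, i), (k, i, j), (k, j, i)])

/-- the set of faces of `P` is `Fin 224` -/
def ofFin (F : Fin 224) : P.Face := F

theorem Q_of {i j k : ℕ} {F : Fin 224} (h : ∃ x y z, P.IsTriangle (ofFin F) x y z ∧ P.deg x = i ∧
    P.deg y = j ∧ P.deg z = k) : Q i j k F = true := by
  obtain ⟨x, y, z, ⟨hxy, hyz, hxz, a, b, c, rfl, rfl, rfl, hd⟩, rfl, rfl, rfl⟩ := h
  have hF := okF F.isLt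
  have hd' : ∀ d : G.Dart, face d = F ↔ d = a ∨ d = b ∨ d = c := hd
  have m1 := (hd' (dart (tA F) (tB F) hF.la hF.ab)).1 (Fin.ext hF.fab)
  have m2 := (hd' (dart (tB F) (tC F) hF.lb hF.bc)).1 (Fin.ext hF.fbc)
  have m3 := (hd' (dart (tC F) (tA F) hF.lc hF.ca)).1 (Fin.ext hF.fca)
  have key : ∀ (u v : ℕ) (hu : u < 114) (h : adjB u v = true),
      (dart u v hu h = a ∨ dart u v hu h = b ∨ dart u v hu h = c) →
      (u = (a.fst : Fin 114) ∨ u = (b.fst : Fin 114) ∨ u = (c.fst : Fin 114)) := by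
    intro u v hu h hh
    rcases hh with hh | hh | hh
    · left; rw [← hh]; rfl
    · right; left; rw [← hh]; rfl
    · right; right; rw [← hh]; rfl
  have k1 := key _ _ _ _ m1
  have k2 := key _ _ _ _ m2
  have k3 := key _ _ _ _ m3
  have n1 := hF.nab
  have n2 := hF.nbc
  have n3 := hF.nac
  unfold Q
  rw [decide_eq_true_eq, P_deg, P_deg, P_deg]
  rcases k1 with k1 | k1 | k1 <;> rcases k2 with k2 | k2 | k2 <;> rcases k3 with k3 | k3 | k3 <;>
    first
    | exact absurd (k1.trans k2.symm) n1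
    | exact absurd (k2.trans k3.symm) n2
    | exact absurd (k1.trans k3.symm) n3
    | (rw [k1, k2, k3]; simp)

theorem f_le (i j k n : ℕ) (h : (Finset.univ.filter fun F : Fin 224 => Q i j k F = true).card ≤ n) :
    P.f i j k ≤ n := by
  refine le_trans ?_ h
  rw [← Set.ncard_coe_finset]
  change ({F : Fin 224 | ∃ x y z, P.IsTriangle (ofFin F) x y z ∧ P.deg x = i ∧
    P.deg y = j ∧ P.deg z = k} : Set (Fin 224)).ncard ≤ _
  refine Set.ncard_le_ncard (fun F hF => ?_) (Set.toFinite _)
  rw [Finset.mem_coe, Finset.mem_filter]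
  exact ⟨Finset.mem_univ _, Q_of hF⟩

theorem f555 : P.f 5 5 5 ≤ 0 := f_le _ _ _ _ (by decide +kernel)
theorem f556 : P.f 5 5 6 ≤ 0 := f_le _ _ _ _ (by decide +kernel)
theorem f557 : P.f 5 5 7 ≤ 16 := f_le _ _ _ _ (by decide +kernel)
theorem f566 : P.f 5 6 6 ≤ 16 := f_le _ _ _ _ (by decide +kernel)

end Ex

end Pool.Agent.Helper41.Cad
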