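import Mathlib

set_option autoImplicit false

/-!
# Plane graphs as combinatorial maps, and the number of triangular faces with given degrees

A drawing of a finite simple graph without isolated vertices in the plane is described, as usual, by the
clockwise order of the darts (oriented edges) around each vertex and by the assignment to each dart of
the face on its left.
-/

namespace Pool.Agent.Helper41.Cad

/-- A finite simple plane graph (without isolated vertices), given by the combinatorial data of its
drawing: `rot` maps a dart (oriented edge) to the next dart with the same starting vertex in clockwise
order, and `face d` is the face on the left of the dart `d`. After the dart `d` the boundary of the face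
continues with the dart `rot d.symm` (`face_next`).

Any two darts can be joined by steps within connected components and within boundaries of faces
(`linked`; this is automatic for a connected graph), and Euler's formula
`vertices - edges + faces = 1 + components` holds (`euler`): this says that the surface is the sphere. -/
structure PlaneGraph (V : Type) where
  /-- the underlying simple graph -/
  graph : SimpleGraph V
  /-- the next dart at the same vertex, in clockwise order -/
  rot : Equiv.Perm graph.Dart
  rot_fst : ∀ d, (rot d).fst = d.fst
  rot_cyclic : ∀ d d' : graph.Dart, d.fst = d'.fst → rot.SameCycle d d'
  /-- the set of faces -/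
  Face : Type
  /-- the face on the left of a dart -/
  face : graph.Dart → Face
  face_surjective : Function.Surjective face
  face_next : ∀ d, face (rot d.symm) = face d
  linked : ∀ d d' : graph.Dart,
    Relation.EqvGen (fun x y => graph.Reachable x.fst y.fst ∨ face x = face y) d d'
  euler : Nat.card V + Nat.card Face =
    graph.edgeSet.ncard + 1 + Nat.card graph.ConnectedComponent

namespace PlaneGraph

variable {V : Type} (P : PlaneGraph V)

/-- the degree of a vertex -/
noncomputable def deg (v : V) : ℕ := (P.graph.neighborSet v).ncard

/-- `F` is a triangular face with the boundary vertices `x`, `y`, `z`: exactly three darts have `F` on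
their left, and they start at the three different vertices `x`, `y`, `z`. -/
def IsTriangle (F : P.Face) (x y z : V) : Prop :=
  x ≠ y ∧ y ≠ z ∧ x ≠ z ∧ ∃ a b c : P.graph.Dart, a.fst = x ∧ b.fst = y ∧ c.fst = z ∧
    ∀ d, P.face d = F ↔ d = a ∨ d = b ∨ d = c

/-- `f i j k`: the number of triangular faces whose three boundary vertices have the degrees `i`, `j`,
`k` (in any order) -/
noncomputable def f (i j k : ℕ) : ℕ :=
  {F : P.Face | ∃ x y z, P.IsTriangle F x y z ∧ P.deg x = i ∧ P.deg y = j ∧ P.deg z = k}.ncard

end PlaneGraph

end Pool.Agent.Helper41.Cad
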