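import Mathlib
import Pool.Agent.Helper41.Cad.Defs

set_option autoImplicit false

/-!
# The inequality `18 f555 + 9 f556 + 5 f557 + 4 f566 ≥ 144` by discharging

All charges are doubled. The vertex `v` has the charge `24 (6 - deg v)`, and a face with `l` darts has
the capacity `48 (l - 3)` if `l ≥ 4`, and `36`, `18`, `10`, `8` for the triangular faces with degrees
`555`, `556`, `557`, `566`.
-/

namespace Pool.Agent.Helper41.Cad

open Finset
open scoped Classical

namespace PlaneGraph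

variable {V : Type} (P : PlaneGraph V)

/-- next dart of the boundary of the face -/
def nx (d : P.graph.Dart) : P.graph.Dart := P.rot d.symm

lemma nx_fst (d : P.graph.Dart) : (P.nx d).fst = d.snd := by
  unfold nx; rw [P.rot_fst]; rfl

lemma face_nx (d : P.graph.Dart) : P.face (P.nx d) = P.face d := P.face_next d

lemma rot_symm_fst (d : P.graph.Dart) : (P.rot.symm d).fst = d.fst := by
  have := P.rot_fst (P.rot.symm d)
  rw [Equiv.apply_symm_apply] at this
  exact this.symm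

lemma nx_injective : Function.Injective P.nx := by
  intro a b h
  have h1 : a.symm = b.symm := P.rot.injective h
  have h2 := congrArg SimpleGraph.Dart.symm h1
  simpa using h2

lemma dart_ext {a b : P.graph.Dart} (h1 : a.fst = b.fst) (h2 : a.snd = b.snd) : a = b := by
  apply SimpleGraph.Dart.ext
  exact Prod.ext h1 h2

variable [Fintype V]

/-- the darts starting at `v` -/
noncomputable def fib (v : V) : Finset P.graph.Dart := univ.filter fun x => x.fst = v

lemma mem_fib (v : V) (x : P.graph.Dart) : x ∈ P.fib v ↔ x.fst = v := by simp [fib]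

lemma card_fib (v : V) : (P.fib v).card = P.deg v := by
  have h1 : P.deg v = P.graph.degree v := by
    unfold deg
    rw [← SimpleGraph.card_neighborSet_eq_degree, ← Nat.card_eq_fintype_card]
    rfl
  rw [h1, ← P.graph.dart_fst_fiber_card_eq_degree v]
  unfold fib
  congr

lemma finite_face : Finite P.Face := Finite.of_surjective P.face P.face_surjective

noncomputable instance : Fintype P.Face :=
  have := P.finite_face
  Fintype.ofFinite _

/-- number of darts of a face -/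
noncomputable def ell (F : P.Face) : ℕ := (univ.filter fun x => P.face x = F).card

/-- the face of the dart is a triangle -/
def T (x : P.graph.Dart) : Prop := P.ell (P.face x) = 3

omit [Fintype V] in
lemma nx_ne (d : P.graph.Dart) : P.nx d ≠ d := by
  intro h
  have h1 := P.nx_fst d
  rw [h] at h1
  exact d.adj.ne h1

lemma nx_nx_ne (h5 : ∀ v, 5 ≤ P.deg v) (d : P.graph.Dart) : P.nx (P.nx d) ≠ d := by
  intro h
  have h1 : (P.nx d).snd = d.fst := by
    rw [← P.nx_fst (P.nx d), h]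
  have h2 : P.nx d = d.symm := P.dart_ext (by rw [P.nx_fst]; rfl) (by rw [h1]; rfl)
  have h3 : P.rot d.symm = d.symm := h2
  have h4 : P.fib d.snd ⊆ {d.symm} := by
    intro y hy
    rw [mem_fib] at hy
    have hs : P.rot.SameCycle d.symm y := P.rot_cyclic _ _ (by rw [hy]; rfl)
    rw [mem_singleton]
    exact (Equiv.Perm.SameCycle.eq_of_left hs h3).symm
  have h6 := card_le_card h4
  rw [P.card_fib, card_singleton] at h6
  have := h5 d.snd
  omega

lemma three_le_ell (h5 : ∀ v, 5 ≤ P.deg v) (x : P.graph.Dart) :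
    ({x, P.nx x, P.nx (P.nx x)} : Finset P.graph.Dart).card = 3 ∧
    ({x, P.nx x, P.nx (P.nx x)} : Finset P.graph.Dart) ⊆ univ.filter fun y => P.face y = P.face x := by
  constructor
  · rw [card_eq_three]
    exact ⟨x, P.nx x, P.nx (P.nx x), (P.nx_ne x).symm, (P.nx_nx_ne h5 x).symm,
      (P.nx_ne (P.nx x)).symm, rfl⟩
  · intro y hy
    simp only [mem_insert, mem_singleton] at hy
    simp only [mem_filter, mem_univ, true_and]
    rcases hy with rfl | rfl | rfl
    · rfl
    · rw [P.face_nx]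
    · rw [P.face_nx, P.face_nx]

lemma ell_ge (h5 : ∀ v, 5 ≤ P.deg v) (F : P.Face) : 3 ≤ P.ell F := by
  obtain ⟨x, rfl⟩ := P.face_surjective F
  obtain ⟨h1, h2⟩ := P.three_le_ell h5 x
  have := card_le_card h2
  rw [h1] at this
  exact this

lemma fiber_of_T (h5 : ∀ v, 5 ≤ P.deg v) {x : P.graph.Dart} (hx : P.T x) :
    (univ.filter fun y => P.face y = P.face x) = {x, P.nx x, P.nx (P.nx x)} := by
  obtain ⟨h1, h2⟩ := P.three_le_ell h5 x
  exact (eq_of_subset_of_card_le h2 (by rw [h1]; exact hx.le)).symm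

lemma nx3 (h5 : ∀ v, 5 ≤ P.deg v) {x : P.graph.Dart} (hx : P.T x) :
    P.nx (P.nx (P.nx x)) = x := by
  have h : P.nx (P.nx (P.nx x)) ∈ (univ.filter fun y => P.face y = P.face x) := by
    simp [P.face_nx]
  rw [P.fiber_of_T h5 hx] at h
  simp only [mem_insert, mem_singleton] at h
  rcases h with h | h | h
  · exact h
  · exact absurd (P.nx_injective h) (P.nx_nx_ne h5 x)
  · exact absurd (P.nx_injective h) (P.nx_ne _)

lemma rot_symm_snd (h5 : ∀ v, 5 ≤ P.deg v) {x : P.graph.Dart} (hx : P.T x) :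
    (P.rot.symm x).snd = (P.nx (P.nx x)).fst := by
  have h1 : P.rot (P.nx (P.nx x)).symm = x := P.nx3 h5 hx
  have h2 : P.rot.symm x = (P.nx (P.nx x)).symm := by
    rw [Equiv.symm_apply_eq]; exact h1.symm
  rw [h2]; rfl

lemma corner_iff (h5 : ∀ v, 5 ≤ P.deg v) (x : P.graph.Dart) :
    (P.T (P.rot x.symm) ∧ P.deg (P.rot x.symm).snd = 5) ↔
      (P.T x ∧ P.deg (P.rot.symm x).snd = 5) := by
  have h1 : P.T (P.rot x.symm) ↔ P.T x := by
    unfold T; rw [P.face_next]
  rw [h1]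
  constructor
  · rintro ⟨h2, h3⟩
    refine ⟨h2, ?_⟩
    rw [P.rot_symm_snd h5 h2, P.nx_fst]
    exact h3
  · rintro ⟨h2, h3⟩
    refine ⟨h2, ?_⟩
    rw [P.rot_symm_snd h5 h2, P.nx_fst] at h3
    exact h3

/-- the number of triangular corners at the dart `x` with a third vertex of degree `5` -/
noncomputable def J (x : P.graph.Dart) : ℤ :=
  (if P.T x ∧ P.deg (P.rot.symm x).snd = 5 then 1 else 0) +
  (if P.T (P.rot x) ∧ P.deg (P.rot x).snd = 5 then 1 else 0)

lemma J_symm (h5 : ∀ v, 5 ≤ P.deg v) (x : P.graph.Dart) : P.J x.symm = P.J x := by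
  unfold J
  have h1 := P.corner_iff h5 x
  have h2 := P.corner_iff h5 x.symm
  rw [SimpleGraph.Dart.symm_symm] at h2
  simp only [h1, ← h2]
  ring

/-- the charge sent from the start of `x` to the end of `x` -/
noncomputable def S (x : P.graph.Dart) : ℤ :=
  if P.deg x.fst = 5 then
    (if P.deg x.snd = 7 then 8 + P.J x else
      if P.deg x.snd = 8 then 12 - 3 * P.J x else
        if 9 ≤ P.deg x.snd then 16 - 4 * P.J x else 0)
  else 0

/-- charge received by a vertex of degree `p` from a triangular corner with the other degrees `q`, `r` -/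
def K (p q r : ℕ) : ℤ :=
  if p = 5 then
    (if q = 5 ∧ r = 5 then 12 else if (q = 5 ∧ r = 6) ∨ (q = 6 ∧ r = 5) then 9 else
      if q = 6 ∧ r = 6 then 8 else 0)
  else if p = 7 ∧ q = 5 ∧ r = 5 then 10 else 0

/-- charge given by the face of `x` to the start of `x` -/
noncomputable def gam (x : P.graph.Dart) : ℤ :=
  if P.T x then K (P.deg x.fst) (P.deg (P.rot.symm x).snd) (P.deg x.snd) else 12

lemma K_nonneg (p q r : ℕ) : 0 ≤ K p q r := by
  unfold K; split_ifs <;> norm_num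

lemma gam_nonneg (x : P.graph.Dart) : 0 ≤ P.gam x := by
  unfold gam; split_ifs
  · exact K_nonneg _ _ _
  · norm_num

lemma sum_rot (v : V) (g : P.graph.Dart → ℤ) :
    ∑ x ∈ P.fib v, g (P.rot x) = ∑ x ∈ P.fib v, g x := by
  refine Finset.sum_equiv P.rot ?_ ?_
  · intro x
    rw [mem_fib, mem_fib, P.rot_fst]
  · intro x _
    rfl

lemma sum_rot_symm (v : V) (g : P.graph.Dart → ℤ) :
    ∑ x ∈ P.fib v, g (P.rot.symm x) = ∑ x ∈ P.fib v, g x := by
  rw [← P.sum_rot v (fun x => g (P.rot.symm x))]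
  simp

/-! ### Vertices of degree at least seven -/

lemma big_vertex (h5 : ∀ v, 5 ≤ P.deg v) (v : V) (hv : 7 ≤ P.deg v) :
    24 * (6 - (P.deg v : ℤ)) ≤ ∑ x ∈ P.fib v, (P.gam x + P.S x - P.S x.symm) := by
  obtain ⟨t, ht⟩ : ∃ t : ℤ, t = ∑ x ∈ P.fib v, (if P.deg x.snd = 5 then (1 : ℤ) else 0) := ⟨_, rfl⟩
  obtain ⟨m, hm⟩ : ∃ m : ℤ, m = ∑ x ∈ P.fib v, (if P.T x then (0 : ℤ) else 1) := ⟨_, rfl⟩
  obtain ⟨a, ha⟩ : ∃ a : ℤ, a = ∑ x ∈ P.fib v,
      (if P.T x ∧ P.deg x.snd = 5 ∧ P.deg (P.rot.symm x).snd = 5 then (1 : ℤ) else 0) := ⟨_, rfl⟩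
  have hk : (P.deg v : ℤ) = ∑ x ∈ P.fib v, (1 : ℤ) := by
    rw [← P.card_fib]; simp
  have ht0 : 0 ≤ t := by
    rw [ht]; exact sum_nonneg fun x _ => by split_ifs <;> norm_num
  have hm0 : 0 ≤ m := by
    rw [hm]; exact sum_nonneg fun x _ => by split_ifs <;> norm_num
  have ha0 : 0 ≤ a := by
    rw [ha]; exact sum_nonneg fun x _ => by split_ifs <;> norm_num
  -- the counting inequality
  have hcount : 2 * t ≤ (P.deg v : ℤ) + m + a := by
    have e1 : t = ∑ x ∈ P.fib v, (if P.deg (P.rot.symm x).snd = 5 then (1 : ℤ) else 0) := by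
      rw [P.sum_rot_symm v (fun x => if P.deg x.snd = 5 then (1 : ℤ) else 0), ht]
    have e2 : 2 * t = ∑ x ∈ P.fib v, ((if P.deg x.snd = 5 then (1 : ℤ) else 0) +
        (if P.deg (P.rot.symm x).snd = 5 then (1 : ℤ) else 0)) := by
      rw [sum_add_distrib, ← e1, ← ht]; ring
    rw [e2, hk, hm, ha, ← sum_add_distrib, ← sum_add_distrib]
    refine sum_le_sum fun x _ => ?_
    by_cases h1 : P.deg x.snd = 5 <;> by_cases h2 : P.deg (P.rot.symm x).snd = 5 <;>
      by_cases h3 : P.T x <;> simp [h1, h2, h3]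
  -- the sum of `J`
  have hJ : ∑ x ∈ P.fib v, (if P.deg x.snd = 5 then P.J x else 0) = 2 * a := by
    have e1 : a = ∑ x ∈ P.fib v, (if P.T (P.rot x) ∧ P.deg (P.rot x).snd = 5 ∧ P.deg x.snd = 5
        then (1 : ℤ) else 0) := by
      rw [ha, ← P.sum_rot v]
      simp
    have e2 : 2 * a = ∑ x ∈ P.fib v,
        ((if P.T x ∧ P.deg x.snd = 5 ∧ P.deg (P.rot.symm x).snd = 5 then (1 : ℤ) else 0) +
        (if P.T (P.rot x) ∧ P.deg (P.rot x).snd = 5 ∧ P.deg x.snd = 5 then (1 : ℤ) else 0)) := by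
      rw [sum_add_distrib, ← e1, ← ha]; ring
    rw [e2]
    refine sum_congr rfl fun x _ => ?_
    unfold J
    by_cases h1 : P.deg x.snd = 5
    · simp only [h1, if_true, true_and, and_true]
    · simp only [h1, if_false, false_and, and_false, add_zero]
  -- the sent charge
  have hS0 : ∀ x ∈ P.fib v, P.S x = 0 := by
    intro x hx
    rw [mem_fib] at hx
    unfold S
    rw [hx, if_neg (by omega)]
  have hg : ∑ x ∈ P.fib v, P.gam x = 12 * m + (if P.deg v = 7 then 10 * a else 0) := by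
    have e1 : (if P.deg v = 7 then 10 * a else 0) = ∑ x ∈ P.fib v,
        (if P.T x ∧ P.deg v = 7 ∧ P.deg x.snd = 5 ∧ P.deg (P.rot.symm x).snd = 5
          then (10 : ℤ) else 0) := by
      by_cases h : P.deg v = 7
      · simp only [h, if_true, true_and]
        rw [ha, mul_sum]
        refine sum_congr rfl fun x _ => ?_
        split_ifs <;> norm_num
      · simp [h]
    rw [e1, hm, mul_sum, ← sum_add_distrib]
    refine sum_congr rfl fun x hx => ?_
    rw [mem_fib] at hx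
    unfold gam K
    rw [hx, if_neg (show ¬ P.deg v = 5 by omega)]
    by_cases h3 : P.T x
    · simp only [h3, if_true, true_and]
      by_cases h4 : P.deg v = 7 ∧ P.deg (P.rot.symm x).snd = 5 ∧ P.deg x.snd = 5
      · rw [if_pos h4, if_pos ⟨h4.1, h4.2.2, h4.2.1⟩]; norm_num
      · rw [if_neg h4, if_neg (fun h => h4 ⟨h.1, h.2.2, h.2.1⟩)]; norm_num
    · simp [h3]
  have hSs : ∀ al be : ℤ, (∀ x ∈ P.fib v, P.deg x.snd = 5 → P.S x.symm = al - be * P.J x) →
      ∑ x ∈ P.fib v, P.S x.symm = al * t - 2 * be * a := by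
    intro al be h
    have e1 : ∀ x ∈ P.fib v, P.S x.symm = al * (if P.deg x.snd = 5 then (1 : ℤ) else 0) -
        be * (if P.deg x.snd = 5 then P.J x else 0) := by
      intro x hx
      by_cases h1 : P.deg x.snd = 5
      · rw [h x hx h1, if_pos h1, if_pos h1]; ring
      · rw [if_neg h1, if_neg h1]
        unfold S
        rw [if_neg (show ¬ P.deg x.symm.fst = 5 from h1)]; ring
    rw [sum_congr rfl e1, sum_sub_distrib, ← mul_sum, ← mul_sum, hJ, ← ht]
    ring
  have hsym : ∀ x ∈ P.fib v, P.deg x.symm.snd = P.deg v := by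
    intro x hx
    rw [mem_fib] at hx
    rw [← hx]; rfl
  have hfst : ∀ x : P.graph.Dart, P.deg x.snd = 5 → P.deg x.symm.fst = 5 := fun x h => h
  rw [sum_sub_distrib, sum_add_distrib, hg, sum_eq_zero hS0]
  rcases (show P.deg v = 7 ∨ P.deg v = 8 ∨ 9 ≤ P.deg v by omega) with h | h | h
  · rw [hSs 8 (-1), if_pos h, h] 
    · rw [h] at hcount
      push_cast at hcount ⊢
      omega
    · intro x hx hx5
      unfold S
      rw [if_pos (hfst x hx5), hsym x hx, if_pos h, P.J_symm h5]; ring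
  · rw [hSs 12 3, if_neg (by omega), h]
    · rw [h] at hcount
      push_cast at hcount ⊢
      omega
    · intro x hx hx5
      unfold S
      rw [if_pos (hfst x hx5), hsym x hx, if_neg (by omega), if_pos h, P.J_symm h5]
  · rw [hSs 16 4, if_neg (by omega)]
    · have : (9 : ℤ) ≤ P.deg v := by exact_mod_cast h
      linarith
    · intro x hx hx5
      unfold S
      rw [if_pos (hfst x hx5), hsym x hx, if_neg (by omega), if_neg (by omega), if_pos h,
        P.J_symm h5]

/-! ### Vertices of degree six -/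

lemma six_vertex (v : V) (hv : P.deg v = 6) :
    24 * (6 - (P.deg v : ℤ)) ≤ ∑ x ∈ P.fib v, (P.gam x + P.S x - P.S x.symm) := by
  have h0 : 24 * (6 - (P.deg v : ℤ)) = 0 := by rw [hv]; norm_num
  rw [h0]
  refine Finset.sum_nonneg fun x hx => ?_
  rw [mem_fib] at hx
  have h1 : P.S x = 0 := by
    unfold S; rw [hx, if_neg (by omega)]
  have h2 : P.S x.symm = 0 := by
    have h3 : P.deg x.symm.snd = 6 := by
      rw [← hv, ← hx]; rfl
    unfold S; rw [h3]; simp
  rw [h1, h2]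
  have := P.gam_nonneg x
  linarith

/-! ### Vertices of degree five -/

/-- the classes `5`, `6`, `7`, `8`, `≥ 9` of degrees -/
def cls (d : ℕ) : Fin 5 := if d = 5 then 0 else if d = 6 then 1 else if d = 7 then 2 else
  if d = 8 then 3 else 4

def base (c : Fin 5) : ℤ := ![0, 0, 8, 12, 16] c

def kap (c : Fin 5) : ℤ := ![0, 0, 1, -3, -4] c

def E (c d : Fin 5) : ℤ :=
  ![![12, 9, 1, -3, -4], ![9, 8, 0, 0, 0], ![1, 0, 0, 0, 0], ![-3, 0, 0, 0, 0], ![-4, 0, 0, 0, 0]] c d

lemma five_cycle : ∀ c0 c1 c2 c3 c4 : Fin 5,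
    24 ≤ base c0 + E c4 c0 + (base c1 + E c0 c1) + (base c2 + E c1 c2) + (base c3 + E c2 c3) +
      (base c4 + E c3 c4) := by
  decide +kernel

lemma E_le (c d : Fin 5) : E c d ≤ 12 := by
  revert c d; decide

lemma K_five (q r : ℕ) (hq : 5 ≤ q) (hr : 5 ≤ r) :
    K 5 q r + kap (cls r) * (if q = 5 then 1 else 0) + kap (cls q) * (if r = 5 then 1 else 0) =
      E (cls q) (cls r) := by
  have key : ∀ n : ℕ, 5 ≤ n → (n = 5 ∧ cls n = 0) ∨ (n = 6 ∧ cls n = 1) ∨ (n = 7 ∧ cls n = 2) ∨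
      (n = 8 ∧ cls n = 3) ∨ (9 ≤ n ∧ cls n = 4) := by
    intro n hn
    rcases (show n = 5 ∨ n = 6 ∨ n = 7 ∨ n = 8 ∨ 9 ≤ n by omega) with h | h | h | h | h
    · subst h; left; exact ⟨rfl, rfl⟩
    · subst h; right; left; exact ⟨rfl, rfl⟩
    · subst h; right; right; left; exact ⟨rfl, rfl⟩
    · subst h; right; right; right; left; exact ⟨rfl, rfl⟩
    · right; right; right; right
      refine ⟨h, ?_⟩
      unfold cls
      rw [if_neg (by omega), if_neg (by omega), if_neg (by omega), if_neg (by omega)]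
  unfold K
  rcases key q hq with ⟨h1, h2⟩ | ⟨h1, h2⟩ | ⟨h1, h2⟩ | ⟨h1, h2⟩ | ⟨h1, h2⟩ <;>
  rcases key r hr with ⟨h3, h4⟩ | ⟨h3, h4⟩ | ⟨h3, h4⟩ | ⟨h3, h4⟩ | ⟨h3, h4⟩ <;>
  rw [h2, h4] <;>
  first
  | (subst h1; subst h3; simp [kap, E])
  | (subst h1; have e1 : r ≠ 5 := by omega
     have e2 : r ≠ 6 := by omega
     simp [kap, E, e1, e2])
  | (subst h3; have e1 : q ≠ 5 := by omega
     have e2 : q ≠ 6 := by omega
     simp [kap, E, e1, e2])
  | (have e1 : r ≠ 5 := by omega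
     have e2 : r ≠ 6 := by omega
     have e3 : q ≠ 5 := by omega
     have e4 : q ≠ 6 := by omega
     simp [kap, E, e1, e2, e3, e4])

lemma S_five (x : P.graph.Dart) (hx : P.deg x.fst = 5) (h5 : 5 ≤ P.deg x.snd) :
    P.S x = base (cls (P.deg x.snd)) + kap (cls (P.deg x.snd)) * P.J x := by
  unfold S
  rw [if_pos hx]
  unfold cls
  split_ifs with h1 h2 h3 h4 h5' h6 <;> first | omega | (simp [base, kap]; try ring)

/-- The darts at a vertex form one cycle of `rot`. -/
lemma sum_fib_five (v : V) (hv : P.deg v = 5) : ∃ x0 : P.graph.Dart,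
    x0.fst = v ∧ P.rot (P.rot (P.rot (P.rot (P.rot x0)))) = x0 ∧
    ∀ g : P.graph.Dart → ℤ, ∑ x ∈ P.fib v, g x =
      g x0 + g (P.rot x0) + g (P.rot (P.rot x0)) + g (P.rot (P.rot (P.rot x0))) +
        g (P.rot (P.rot (P.rot (P.rot x0)))) := by
  have hne : (P.fib v).Nonempty := by
    rw [← card_pos, P.card_fib, hv]; norm_num
  obtain ⟨x0, hx0⟩ := hne
  rw [mem_fib] at hx0
  have hfst : ∀ n : ℕ, (P.rot^[n] x0).fst = v := by
    intro n
    induction n with
    | zero => exact hx0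
    | succ n ih => rw [Function.iterate_succ_apply', P.rot_fst, ih]
  have hper : x0 ∈ Function.periodicPts P.rot := by
    have hinj : Function.Injective P.rot := P.rot.injective
    exact Function.Injective.mem_periodicPts hinj x0
  obtain ⟨n, hn⟩ : ∃ n, n = Function.minimalPeriod P.rot x0 := ⟨_, rfl⟩
  have hn0 : 0 < n := by rw [hn]; exact Function.minimalPeriod_pos_of_mem_periodicPts hper
  have himg : P.fib v = (range n).image fun i => P.rot^[i] x0 := by
    ext y
    rw [mem_fib, mem_image]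
    constructor
    · intro hy
      have hs : P.rot.SameCycle x0 y := P.rot_cyclic _ _ (by rw [hy, hx0])
      obtain ⟨i, hi⟩ := hs.exists_nat_pow_eq
      refine ⟨i % n, mem_range.2 (Nat.mod_lt _ hn0), ?_⟩
      rw [hn, Function.iterate_mod_minimalPeriod_eq, Equiv.Perm.iterate_eq_pow, hi]
    · rintro ⟨i, -, rfl⟩
      exact hfst i
  have hinjOn : Set.InjOn (fun i => P.rot^[i] x0) (range n : Set ℕ) := by
    intro i hi j hj h
    rw [coe_range] at hi hj
    rw [hn] at hi hj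
    exact Function.iterate_injOn_Iio_minimalPeriod hi hj h
  have hcard : n = 5 := by
    have := P.card_fib v
    rw [himg, card_image_of_injOn hinjOn, card_range, hv] at this
    exact this
  refine ⟨x0, hx0, ?_, ?_⟩
  · have := Function.iterate_minimalPeriod (f := P.rot) (x := x0)
    rw [← hn, hcard] at this
    exact this
  · intro g
    rw [himg, sum_image hinjOn, hcard]
    simp [sum_range_succ]

lemma five_vertex (h5 : ∀ v, 5 ≤ P.deg v) (v : V) (hv : P.deg v = 5) :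
    24 * (6 - (P.deg v : ℤ)) ≤ ∑ x ∈ P.fib v, (P.gam x + P.S x - P.S x.symm) := by
  -- reindexed sum
  have e1 : ∑ x ∈ P.fib v, (P.gam x + P.S x - P.S x.symm) =
      ∑ x ∈ P.fib v, (base (cls (P.deg x.snd)) + (P.gam x +
        kap (cls (P.deg x.snd)) * (if P.T x ∧ P.deg (P.rot.symm x).snd = 5 then 1 else 0) +
        kap (cls (P.deg (P.rot.symm x).snd)) * (if P.T x ∧ P.deg x.snd = 5 then 1 else 0))) := by
    have e2 : ∑ x ∈ P.fib v, kap (cls (P.deg (P.rot.symm x).snd)) *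
        (if P.T x ∧ P.deg x.snd = 5 then 1 else 0) =
        ∑ x ∈ P.fib v, kap (cls (P.deg x.snd)) *
        (if P.T (P.rot x) ∧ P.deg (P.rot x).snd = 5 then 1 else 0) := by
      rw [← P.sum_rot v]
      simp
    have e3 : ∀ x ∈ P.fib v, P.gam x + P.S x - P.S x.symm =
        (base (cls (P.deg x.snd)) + (P.gam x +
        kap (cls (P.deg x.snd)) * (if P.T x ∧ P.deg (P.rot.symm x).snd = 5 then 1 else 0))) +
        kap (cls (P.deg x.snd)) * (if P.T (P.rot x) ∧ P.deg (P.rot x).snd = 5 then 1 else 0) := by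
      intro x hx
      rw [mem_fib] at hx
      have h1 : P.S x.symm = 0 := by
        have h3 : P.deg x.symm.snd = 5 := by
          rw [← hv, ← hx]; rfl
        unfold S; rw [h3]; simp
      rw [h1, P.S_five x (by rw [hx, hv]) (h5 _)]
      unfold J
      ring
    rw [sum_congr rfl e3, sum_add_distrib, ← e2, ← sum_add_distrib]
    exact sum_congr rfl fun x _ => by ring
  have e4 : ∑ x ∈ P.fib v, (base (cls (P.deg x.snd)) +
      E (cls (P.deg (P.rot.symm x).snd)) (cls (P.deg x.snd))) ≤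
      ∑ x ∈ P.fib v, (P.gam x + P.S x - P.S x.symm) := by
    rw [e1]
    refine sum_le_sum fun x hx => ?_
    rw [mem_fib] at hx
    have h6 := h5 (P.rot.symm x).snd
    have h7 := h5 x.snd
    unfold gam
    rw [hx, hv]
    by_cases hT : P.T x
    · simp only [hT, if_true, true_and]
      have := K_five (P.deg (P.rot.symm x).snd) (P.deg x.snd) h6 h7
      linarith
    · simp only [hT, if_false, false_and, mul_zero, add_zero]
      have := E_le (cls (P.deg (P.rot.symm x).snd)) (cls (P.deg x.snd))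
      linarith
  refine le_trans ?_ e4
  obtain ⟨x0, hx0, hrot, hsum⟩ := P.sum_fib_five v hv
  rw [hsum]
  simp only [Equiv.symm_apply_apply]
  have h8 : P.rot.symm x0 = P.rot (P.rot (P.rot (P.rot x0))) := by
    rw [Equiv.symm_apply_eq, hrot]
  rw [h8, hv]
  have := five_cycle (cls (P.deg x0.snd)) (cls (P.deg (P.rot x0).snd))
    (cls (P.deg (P.rot (P.rot x0)).snd)) (cls (P.deg (P.rot (P.rot (P.rot x0))).snd))
    (cls (P.deg (P.rot (P.rot (P.rot (P.rot x0)))).snd))
  push_cast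
  linarith

lemma vertex (h5 : ∀ v, 5 ≤ P.deg v) (v : V) :
    24 * (6 - (P.deg v : ℤ)) ≤ ∑ x ∈ P.fib v, (P.gam x + P.S x - P.S x.symm) := by
  rcases (show P.deg v = 5 ∨ P.deg v = 6 ∨ 7 ≤ P.deg v by have := h5 v; omega) with h | h | h
  · exact P.five_vertex h5 v h
  · exact P.six_vertex v h
  · exact P.big_vertex h5 v h

/-- the sum over the vertices -/
lemma sum_vertices (h5 : ∀ v, 5 ≤ P.deg v) :
    ∑ v, 24 * (6 - (P.deg v : ℤ)) ≤ ∑ x, P.gam x := by
  have e1 : ∑ v, ∑ x ∈ P.fib v, (P.gam x + P.S x - P.S x.symm) =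
      ∑ x, (P.gam x + P.S x - P.S x.symm) := by
    unfold fib
    exact sum_fiberwise univ (fun x : P.graph.Dart => x.fst) _
  have e2 : ∑ x : P.graph.Dart, P.S x.symm = ∑ x : P.graph.Dart, P.S x :=
    Fintype.sum_bijective (fun x : P.graph.Dart => x.symm)
      SimpleGraph.Dart.symm_involutive.bijective _ _ (fun _ => rfl)
  have e3 : ∑ v, 24 * (6 - (P.deg v : ℤ)) ≤
      ∑ v, ∑ x ∈ P.fib v, (P.gam x + P.S x - P.S x.symm) :=
    sum_le_sum fun v _ => P.vertex h5 v
  rw [e1, sum_sub_distrib, sum_add_distrib, e2] at e3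
  linarith

/-! ### Faces -/

set_option maxHeartbeats 4000000 in
lemma K_sum (p q r : ℕ) (i1 i2 i3 i4 : ℤ) (h1 : 0 ≤ i1) (h2 : 0 ≤ i2) (h3 : 0 ≤ i3) (h4 : 0 ≤ i4)
    (a1 : p = 5 → q = 5 → r = 5 → 1 ≤ i1)
    (b1 : p = 5 → q = 5 → r = 6 → 1 ≤ i2) (b2 : p = 5 → q = 6 → r = 5 → 1 ≤ i2)
    (b3 : p = 6 → q = 5 → r = 5 → 1 ≤ i2)
    (c1 : p = 5 → q = 5 → r = 7 → 1 ≤ i3) (c2 : p = 5 → q = 7 → r = 5 → 1 ≤ i3)
    (c3 : p = 7 → q = 5 → r = 5 → 1 ≤ i3)
    (d1 : p = 5 → q = 6 → r = 6 → 1 ≤ i4) (d2 : p = 6 → q = 5 → r = 6 → 1 ≤ i4)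
    (d3 : p = 6 → q = 6 → r = 5 → 1 ≤ i4) :
    K p r q + K q p r + K r q p ≤ 36 * i1 + 18 * i2 + 10 * i3 + 8 * i4 := by
  rcases (show p = 5 ∨ p = 6 ∨ p = 7 ∨ (p ≠ 5 ∧ p ≠ 6 ∧ p ≠ 7) by omega) with
    hp | hp | hp | ⟨hp1, hp2, hp3⟩ <;>
  rcases (show q = 5 ∨ q = 6 ∨ q = 7 ∨ (q ≠ 5 ∧ q ≠ 6 ∧ q ≠ 7) by omega) with
    hq | hq | hq | ⟨hq1, hq2, hq3⟩ <;>
  rcases (show r = 5 ∨ r = 6 ∨ r = 7 ∨ (r ≠ 5 ∧ r ≠ 6 ∧ r ≠ 7) by omega) with
    hr | hr | hr | ⟨hr1, hr2, hr3⟩ <;>
  simp_all [K] <;> linarith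

lemma gam_face (h5 : ∀ v, 5 ≤ P.deg v) {x : P.graph.Dart} (hx : P.T x) :
    ∑ y ∈ univ.filter (fun y => P.face y = P.face x), P.gam y =
      K (P.deg x.fst) (P.deg (P.nx (P.nx x)).fst) (P.deg (P.nx x).fst) +
      K (P.deg (P.nx x).fst) (P.deg x.fst) (P.deg (P.nx (P.nx x)).fst) +
      K (P.deg (P.nx (P.nx x)).fst) (P.deg (P.nx x).fst) (P.deg x.fst) := by
  have hx1 : P.T (P.nx x) := by unfold T; rw [P.face_nx]; exact hx
  have hx2 : P.T (P.nx (P.nx x)) := by unfold T; rw [P.face_nx]; exact hx1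
  rw [P.fiber_of_T h5 hx]
  rw [sum_insert, sum_insert, sum_singleton]
  · unfold gam
    rw [if_pos hx, if_pos hx1, if_pos hx2, P.rot_symm_snd h5 hx, P.rot_symm_snd h5 hx1,
      P.rot_symm_snd h5 hx2, P.nx3 h5 hx]
    have a1 : x.snd = (P.nx x).fst := (P.nx_fst x).symm
    have a2 : (P.nx x).snd = (P.nx (P.nx x)).fst := (P.nx_fst _).symm
    have a3 : (P.nx (P.nx x)).snd = x.fst := by rw [← P.nx_fst, P.nx3 h5 hx]
    rw [a1, a2, a3]
    ring
  · rw [mem_singleton]; exact (P.nx_ne _).symm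
  · simp only [mem_insert, mem_singleton, not_or]
    exact ⟨(P.nx_ne x).symm, (P.nx_nx_ne h5 x).symm⟩

lemma isTriangle_of_T (h5 : ∀ v, 5 ≤ P.deg v) {x : P.graph.Dart} (hx : P.T x) :
    P.IsTriangle (P.face x) x.fst (P.nx x).fst (P.nx (P.nx x)).fst := by
  refine ⟨?_, ?_, ?_, x, P.nx x, P.nx (P.nx x), rfl, rfl, rfl, ?_⟩
  · rw [P.nx_fst]; exact x.adj.ne
  · rw [P.nx_fst (P.nx x)]; exact (P.nx x).adj.ne
  · have h := P.nx_fst (P.nx (P.nx x))
    rw [P.nx3 h5 hx] at h
    rw [h]; exact (P.nx (P.nx x)).adj.ne.symm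
  · intro d
    have h := P.fiber_of_T h5 hx
    have h2 : d ∈ univ.filter (fun y => P.face y = P.face x) ↔
        d ∈ ({x, P.nx x, P.nx (P.nx x)} : Finset P.graph.Dart) := by rw [h]
    simpa using h2

omit [Fintype V] in
lemma isTriangle_swap {F : P.Face} {x y z : V} (h : P.IsTriangle F x y z) :
    P.IsTriangle F y x z := by
  obtain ⟨h1, h2, h3, a, b, c, ha, hb, hc, hd⟩ := h
  refine ⟨h1.symm, h3, h2, b, a, c, hb, ha, hc, fun d => ?_⟩
  rw [hd]; tauto

omit [Fintype V] in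
lemma isTriangle_rotate {F : P.Face} {x y z : V} (h : P.IsTriangle F x y z) :
    P.IsTriangle F y z x := by
  obtain ⟨h1, h2, h3, a, b, c, ha, hb, hc, hd⟩ := h
  refine ⟨h2, h3.symm, h1.symm, b, c, a, hb, hc, ha, fun d => ?_⟩
  rw [hd]; tauto

/-- `F` is a triangular face with degrees `i`, `j`, `k` -/
def Has (F : P.Face) (i j k : ℕ) : Prop :=
  ∃ x y z, P.IsTriangle F x y z ∧ P.deg x = i ∧ P.deg y = j ∧ P.deg z = k

lemma sum_has (i j k : ℕ) : ∑ F, (if P.Has F i j k then (1 : ℤ) else 0) = P.f i j k := by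
  rw [sum_boole]
  have h : {F | P.Has F i j k} =
      ((univ.filter fun F => P.Has F i j k : Finset P.Face) : Set P.Face) := by
    ext F; simp
  change _ = ((({F | P.Has F i j k} : Set P.Face).ncard : ℕ) : ℤ)
  rw [h, Set.ncard_coe_finset]

lemma face_bound (h5 : ∀ v, 5 ≤ P.deg v) (F : P.Face) :
    ∑ y ∈ univ.filter (fun y => P.face y = F), P.gam y ≤
      36 * (if P.Has F 5 5 5 then (1 : ℤ) else 0) + 18 * (if P.Has F 5 5 6 then (1 : ℤ) else 0) +
      10 * (if P.Has F 5 5 7 then (1 : ℤ) else 0) + 8 * (if P.Has F 5 6 6 then (1 : ℤ) else 0) +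
      48 * ((P.ell F : ℤ) - 3) := by
  have hn : ∀ i j k : ℕ, (0 : ℤ) ≤ (if P.Has F i j k then (1 : ℤ) else 0) := by
    intro i j k; split_ifs <;> norm_num
  obtain ⟨x, rfl⟩ := P.face_surjective F
  by_cases hx : P.T x
  · rw [P.gam_face h5 hx]
    have h3 : (P.ell (P.face x) : ℤ) = 3 := by exact_mod_cast hx
    rw [h3]
    have ht := P.isTriangle_of_T h5 hx
    have key := K_sum (P.deg x.fst) (P.deg (P.nx x).fst) (P.deg (P.nx (P.nx x)).fst)
      (if P.Has (P.face x) 5 5 5 then (1 : ℤ) else 0) (if P.Has (P.face x) 5 5 6 then (1 : ℤ) else 0)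
      (if P.Has (P.face x) 5 5 7 then (1 : ℤ) else 0) (if P.Has (P.face x) 5 6 6 then (1 : ℤ) else 0)
      (hn _ _ _) (hn _ _ _) (hn _ _ _) (hn _ _ _)
      (fun a b c => by rw [if_pos ⟨_, _, _, ht, a, b, c⟩])
      (fun a b c => by rw [if_pos ⟨_, _, _, ht, a, b, c⟩])
      (fun a b c => by
        rw [if_pos ⟨_, _, _, P.isTriangle_rotate (P.isTriangle_rotate ht), c, a, b⟩])
      (fun a b c => by rw [if_pos ⟨_, _, _, P.isTriangle_rotate ht, b, c, a⟩])
      (fun a b c => by rw [if_pos ⟨_, _, _, ht, a, b, c⟩])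
      (fun a b c => by
        rw [if_pos ⟨_, _, _, P.isTriangle_rotate (P.isTriangle_rotate ht), c, a, b⟩])
      (fun a b c => by rw [if_pos ⟨_, _, _, P.isTriangle_rotate ht, b, c, a⟩])
      (fun a b c => by rw [if_pos ⟨_, _, _, ht, a, b, c⟩])
      (fun a b c => by rw [if_pos ⟨_, _, _, P.isTriangle_rotate ht, b, c, a⟩])
      (fun a b c => by
        rw [if_pos ⟨_, _, _, P.isTriangle_rotate (P.isTriangle_rotate ht), c, a, b⟩])
    linarith
  · have h4 : 4 ≤ P.ell (P.face x) := by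
      have h3 := P.ell_ge h5 (P.face x)
      have h3' : P.ell (P.face x) ≠ 3 := hx
      omega
    have e1 : ∀ y ∈ univ.filter (fun y => P.face y = P.face x), P.gam y = 12 := by
      intro y hy
      simp only [mem_filter, mem_univ, true_and] at hy
      unfold gam
      rw [if_neg]
      unfold T at hx ⊢
      rw [hy]; exact hx
    rw [sum_congr rfl e1, sum_const, nsmul_eq_mul]
    have h4' : (4 : ℤ) ≤ P.ell (P.face x) := by exact_mod_cast h4
    have h6 : (#(univ.filter fun y => P.face y = P.face x) : ℤ) = P.ell (P.face x) := rfl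
    rw [h6]
    linarith [hn 5 5 5, hn 5 5 6, hn 5 5 7, hn 5 6 6]

/-- **Borodin's inequality.** -/
theorem borodin [Nonempty V] (h5 : ∀ v, 5 ≤ P.deg v) :
    144 ≤ 18 * P.f 5 5 5 + 9 * P.f 5 5 6 + 5 * P.f 5 5 7 + 4 * P.f 5 6 6 := by
  have h1 := P.sum_vertices h5
  have h2 : ∑ x, P.gam x = ∑ F, ∑ y ∈ univ.filter (fun y => P.face y = F), P.gam y :=
    (sum_fiberwise univ P.face _).symm
  have h3 : ∑ F, ∑ y ∈ univ.filter (fun y => P.face y = F), P.gam y ≤ _ :=
    sum_le_sum fun F _ => P.face_bound h5 F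
  rw [← h2] at h3
  simp only [sum_add_distrib, ← mul_sum, P.sum_has] at h3
  -- the number of darts
  have hD1 : (Fintype.card P.graph.Dart : ℤ) = 2 * (P.graph.edgeSet.ncard : ℤ) := by
    have := P.graph.dart_card_eq_twice_card_edges
    rw [this, Set.ncard_eq_toFinset_card']
    push_cast
    congr
  have hD2 : (∑ F, (P.ell F : ℤ)) = Fintype.card P.graph.Dart := by
    have h := card_eq_sum_card_fiberwise (s := (univ : Finset P.graph.Dart)) (t := univ)
      (f := P.face) (fun x _ => mem_coe.2 (mem_univ _))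
    rw [card_univ] at h
    rw [h]
    push_cast
    rfl
  have hD3 : (∑ v, (P.deg v : ℤ)) = Fintype.card P.graph.Dart := by
    have h := card_eq_sum_card_fiberwise (s := (univ : Finset P.graph.Dart)) (t := univ)
      (f := fun x => x.fst) (fun x _ => mem_coe.2 (mem_univ _))
    rw [card_univ] at h
    rw [h]
    push_cast
    refine sum_congr rfl fun v _ => ?_
    rw [← P.card_fib]
    rfl
  have hV : ∑ v, 24 * (6 - (P.deg v : ℤ)) = 144 * (Nat.card V : ℤ) -
      24 * (Fintype.card P.graph.Dart : ℤ) := by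
    rw [← mul_sum, sum_sub_distrib, hD3, sum_const, card_univ, Nat.card_eq_fintype_card]
    simp only [nsmul_eq_mul]
    ring
  have hF : ∑ F, ((P.ell F : ℤ) - 3) = Fintype.card P.graph.Dart - 3 * (Nat.card P.Face : ℤ) := by
    rw [sum_sub_distrib, hD2, sum_const, card_univ, Nat.card_eq_fintype_card]
    simp only [nsmul_eq_mul]
    ring
  have hE : (Nat.card V : ℤ) + (Nat.card P.Face : ℤ) =
      (P.graph.edgeSet.ncard : ℤ) + 1 + (Nat.card P.graph.ConnectedComponent : ℤ) := by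
    exact_mod_cast P.euler
  have hC : 1 ≤ Nat.card P.graph.ConnectedComponent := by
    have : Nonempty P.graph.ConnectedComponent :=
      ⟨P.graph.connectedComponentMk (Classical.arbitrary V)⟩
    exact Nat.card_pos
  have hC' : (1 : ℤ) ≤ Nat.card P.graph.ConnectedComponent := by exact_mod_cast hC
  rw [hV] at h1
  rw [hF] at h3
  have h7 := h1.trans h3
  have h8 : (144 : ℤ) ≤ 18 * P.f 5 5 5 + 9 * P.f 5 5 6 + 5 * P.f 5 5 7 + 4 * P.f 5 6 6 := by
    linarith
  exact_mod_cast h8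

end PlaneGraph

end Pool.Agent.Helper41.Cad
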